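import Mathlib

open MeasureTheory Finset
open scoped Real

namespace Pool.Agent.Results.MP_2fd64a_an.TruncationPowerGrowth

/-- Truncation of one coefficient: `a ↦ (a / |a|) * min(|a|, 1)` (and `0 ↦ 0`). -/
noncomputable def trunc (a : ℂ) : ℂ := (a / (‖a‖ : ℂ)) * ((min ‖a‖ 1 : ℝ) : ℂ)

/-- The coefficient truncation operator: every coefficient is truncated. -/
noncomputable def S (P : Polynomial ℂ) : Polynomial ℂ :=
  ∑ j ∈ range (P.natDegree + 1), Polynomial.monomial j (trunc (P.coeff j))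

/-- The `L_p` (quasi)norm on the unit circle with respect to arc length. -/
noncomputable def lpNorm (p : ℝ) (P : Polynomial ℂ) : ℝ :=
  (∫ t in (0 : ℝ)..(2 * π), ‖P.eval (Complex.exp (t * Complex.I))‖ ^ p) ^ (1 / p)

lemma trunc_zero : trunc 0 = 0 := by simp [trunc]

lemma S_eval (P : Polynomial ℂ) (N : ℕ) (h : P.natDegree < N) (z : ℂ) :
    (S P).eval z = ∑ j ∈ range N, trunc (P.coeff j) * z ^ j := by
  unfold S
  rw [Polynomial.eval_finsetSum]
  simp only [Polynomial.eval_monomial]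
  apply Finset.sum_subset
  · intro x hx
    simp only [mem_range] at hx ⊢
    omega
  · intro x _ hx
    simp only [mem_range, not_lt] at hx
    rw [Polynomial.coeff_eq_zero_of_natDegree_lt (by omega), trunc_zero, zero_mul]

lemma S_coeff (P : Polynomial ℂ) (j : ℕ) : (S P).coeff j = trunc (P.coeff j) := by
  unfold S
  rw [Polynomial.finsetSum_coeff]
  simp only [Polynomial.coeff_monomial]
  rw [Finset.sum_ite_eq' (range (P.natDegree + 1)) j (fun j => trunc (P.coeff j))]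
  split_ifs with h
  · rfl
  · simp only [mem_range, not_lt] at h
    rw [Polynomial.coeff_eq_zero_of_natDegree_lt (by omega), trunc_zero]

/-- Rudin-Shapiro pairs. -/
lemma rs (m : ℕ) : ∃ a b : ℕ → ℝ, (∀ k, a k = 1 ∨ a k = -1) ∧ (∀ k, b k = 1 ∨ b k = -1) ∧
    ∀ z : ℂ, ‖z‖ = 1 →
      ‖∑ k ∈ range (2 ^ m), (a k : ℂ) * z ^ k‖ ^ 2 +
        ‖∑ k ∈ range (2 ^ m), (b k : ℂ) * z ^ k‖ ^ 2 = 2 * 2 ^ m := by
  induction m with
  | zero =>
    refine ⟨fun _ => 1, fun _ => 1, fun _ => Or.inl rfl, fun _ => Or.inl rfl, ?_⟩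
    intro z hz
    simp
    norm_num
  | succ m ih =>
    obtain ⟨a, b, ha, hb, h⟩ := ih
    refine ⟨fun k => if k < 2 ^ m then a k else b (k - 2 ^ m),
      fun k => if k < 2 ^ m then a k else -b (k - 2 ^ m), ?_, ?_, ?_⟩
    · intro k
      dsimp only
      split_ifs
      · exact ha k
      · exact hb _
    · intro k
      dsimp only
      split_ifs
      · exact ha k
      · rcases hb (k - 2 ^ m) with h1 | h1 <;> rw [h1] <;> norm_num
    · intro z hz
      have h1 : ∑ k ∈ range (2 ^ (m + 1)),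
          (((if k < 2 ^ m then a k else b (k - 2 ^ m) : ℝ)) : ℂ) * z ^ k =
          (∑ k ∈ range (2 ^ m), (a k : ℂ) * z ^ k) +
            z ^ (2 ^ m) * ∑ k ∈ range (2 ^ m), (b k : ℂ) * z ^ k := by
        rw [pow_succ, mul_two, Finset.sum_range_add]
        congr 1
        · apply Finset.sum_congr rfl
          intro x hx
          rw [if_pos (mem_range.mp hx)]
        · rw [Finset.mul_sum]
          apply Finset.sum_congr rfl
          intro x _
          rw [if_neg (by omega), Nat.add_sub_cancel_left, pow_add]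
          ring
      have h2 : ∑ k ∈ range (2 ^ (m + 1)),
          (((if k < 2 ^ m then a k else -b (k - 2 ^ m) : ℝ)) : ℂ) * z ^ k =
          (∑ k ∈ range (2 ^ m), (a k : ℂ) * z ^ k) -
            z ^ (2 ^ m) * ∑ k ∈ range (2 ^ m), (b k : ℂ) * z ^ k := by
        rw [pow_succ, mul_two, Finset.sum_range_add, sub_eq_add_neg]
        congr 1
        · apply Finset.sum_congr rfl
          intro x hx
          rw [if_pos (mem_range.mp hx)]
        · rw [Finset.mul_sum, ← Finset.sum_neg_distrib]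
          apply Finset.sum_congr rfl
          intro x _
          rw [if_neg (by omega), Nat.add_sub_cancel_left, pow_add]
          push_cast
          ring
      rw [h1, h2]
      have h3 := parallelogram_law_with_norm ℝ (∑ k ∈ range (2 ^ m), (a k : ℂ) * z ^ k)
        (z ^ (2 ^ m) * ∑ k ∈ range (2 ^ m), (b k : ℂ) * z ^ k)
      have h4 : ‖z ^ (2 ^ m) * ∑ k ∈ range (2 ^ m), (b k : ℂ) * z ^ k‖ =
          ‖∑ k ∈ range (2 ^ m), (b k : ℂ) * z ^ k‖ := by
        rw [norm_mul, norm_pow, hz, one_pow, one_mul]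
      rw [h4] at h3
      rw [h3, h z hz, pow_succ]
      ring

/-- Sums over two digits factor. -/
lemma sum_digits (n : ℕ) (hn : 0 < n) (f g : ℕ → ℂ) (z : ℂ) (K : ℕ) :
    ∑ i ∈ range (n * K), f (i % n) * g (i / n) * z ^ i =
      (∑ j ∈ range n, f j * z ^ j) * (∑ k ∈ range K, g k * (z ^ n) ^ k) := by
  induction K with
  | zero => simp
  | succ K ih =>
    rw [Nat.mul_succ, Finset.sum_range_add, ih, Finset.sum_range_succ _ K, mul_add]
    congr 1
    rw [Finset.sum_mul]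
    apply Finset.sum_congr rfl
    intro x hx
    have hx' : x < n := mem_range.mp hx
    have h1 : (n * K + x) % n = x := by
      rw [Nat.mul_add_mod, Nat.mod_eq_of_lt hx']
    have h2 : (n * K + x) / n = K := by
      rw [Nat.mul_add_div hn, Nat.div_eq_of_lt hx', add_zero]
    rw [h1, h2, pow_add, pow_mul]
    ring

/-- The circle parametrisation. -/
noncomputable def e (t : ℝ) : ℂ := Complex.exp (t * Complex.I)

lemma norm_e (t : ℝ) : ‖e t‖ = 1 := by
  unfold e
  exact Complex.norm_exp_ofReal_mul_I t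

lemma continuous_e : Continuous e := by
  unfold e
  fun_prop

/-- Integral of a nonzero character. -/
lemma integral_char (j k : ℕ) :
    ∫ t in (0 : ℝ)..(2 * π), (e t ^ j * (starRingEnd ℂ) (e t ^ k)) =
      if j = k then ((2 * π : ℝ) : ℂ) else 0 := by
  have h1 : ∀ t : ℝ, e t ^ j * (starRingEnd ℂ) (e t ^ k) =
      Complex.exp ((((j : ℂ) - k) * Complex.I) * t) := by
    intro t
    unfold e
    rw [← Complex.exp_nat_mul, ← Complex.exp_nat_mul, ← Complex.exp_conj, ← Complex.exp_add]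
    congr 1
    simp only [map_mul, Complex.conj_ofReal, Complex.conj_I, map_natCast]
    ring
  simp_rw [h1]
  split_ifs with h
  · subst h
    simp
  · have hc : (((j : ℂ) - k) * Complex.I) ≠ 0 := by
      apply mul_ne_zero
      · rw [sub_ne_zero]
        exact_mod_cast h
      · exact Complex.I_ne_zero
    rw [integral_exp_mul_complex hc]
    have h2 : Complex.exp ((((j : ℂ) - k) * Complex.I) * ((2 * π : ℝ) : ℂ)) = 1 := by
      rw [Complex.exp_eq_one_iff]
      refine ⟨(j : ℤ) - k, ?_⟩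
      push_cast
      ring
    rw [h2]
    simp

/-- Parseval identity. -/
lemma parseval (n : ℕ) (a : ℕ → ℂ) :
    ∫ t in (0 : ℝ)..(2 * π), ‖∑ k ∈ range n, a k * e t ^ k‖ ^ 2 =
      2 * π * ∑ k ∈ range n, ‖a k‖ ^ 2 := by
  have h1 : ∀ t : ℝ, ((‖∑ k ∈ range n, a k * e t ^ k‖ ^ 2 : ℝ) : ℂ) =
      ∑ j ∈ range n, ∑ k ∈ range n,
        (a j * (starRingEnd ℂ) (a k)) * (e t ^ j * (starRingEnd ℂ) (e t ^ k)) := by
    intro t
    push_cast
    rw [← Complex.mul_conj', map_sum, Finset.sum_mul_sum]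
    apply Finset.sum_congr rfl
    intro j _
    apply Finset.sum_congr rfl
    intro k _
    rw [map_mul]
    ring
  have h2 : ((∫ t in (0 : ℝ)..(2 * π), ‖∑ k ∈ range n, a k * e t ^ k‖ ^ 2 : ℝ) : ℂ) =
      ((2 * π * ∑ k ∈ range n, ‖a k‖ ^ 2 : ℝ) : ℂ) := by
    rw [← intervalIntegral.integral_ofReal]
    simp_rw [h1]
    have hce : Continuous (fun t : ℝ => e t) := continuous_e
    rw [intervalIntegral.integral_finsetSum]
    · have h3 : ∀ j ∈ range n, ∫ t in (0 : ℝ)..(2 * π), ∑ k ∈ range n,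
          (a j * (starRingEnd ℂ) (a k)) * (e t ^ j * (starRingEnd ℂ) (e t ^ k)) =
          (2 * π : ℝ) * (‖a j‖ ^ 2 : ℝ) := by
        intro j hj
        rw [intervalIntegral.integral_finsetSum]
        · simp_rw [intervalIntegral.integral_const_mul, integral_char]
          simp only [mul_ite, mul_zero]
          rw [Finset.sum_ite_eq (range n) j, if_pos hj]
          push_cast
          rw [← Complex.mul_conj']
          ring
        · intro k _
          apply Continuous.intervalIntegrable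
          fun_prop
      rw [Finset.sum_congr rfl h3]
      push_cast
      rw [Finset.mul_sum]
    · intro j _
      apply Continuous.intervalIntegrable
      fun_prop
  exact_mod_cast h2

/-- Dirichlet kernel. -/
noncomputable def D (n : ℕ) (z : ℂ) : ℂ := ∑ k ∈ range n, z ^ k

lemma continuous_D_e (n : ℕ) : Continuous (fun t => D n (e t)) := by
  unfold D
  have := continuous_e
  fun_prop

lemma D_bound (n : ℕ) (δ t : ℝ) (hδ : 0 < δ) (h1 : δ ≤ t) (h2 : t ≤ 2 * π - δ) :
    ‖D n (e t)‖ ≤ π / δ := by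
  have hs : δ / π ≤ Real.sin (t / 2) := by
    rcases le_total (t / 2) (π / 2) with h | h
    · have := Real.mul_le_sin (x := t / 2) (by linarith) h
      have h3 : δ / π ≤ 2 / π * (t / 2) := by
        rw [div_mul_eq_mul_div]
        apply div_le_div_of_nonneg_right _ Real.pi_pos.le
        linarith
      linarith
    · have := Real.mul_le_sin (x := π - t / 2) (by linarith) (by linarith)
      rw [Real.sin_pi_sub] at this
      have h3 : δ / π ≤ 2 / π * (π - t / 2) := by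
        rw [div_mul_eq_mul_div]
        apply div_le_div_of_nonneg_right _ Real.pi_pos.le
        linarith
      linarith
  have hpos : 0 < δ / π := div_pos hδ Real.pi_pos
  have h4 : ‖e t - 1‖ = 2 * Real.sin (t / 2) := by
    have := Complex.norm_exp_I_mul_ofReal_sub_one t
    unfold e
    rw [mul_comm, this, Real.norm_eq_abs, abs_of_nonneg (by linarith)]
  have h5 : (e t - 1) * D n (e t) = e t ^ n - 1 := by
    unfold D
    rw [mul_comm]
    exact geom_sum_mul (e t) n
  have h6 : ‖e t - 1‖ * ‖D n (e t)‖ ≤ 2 := by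
    rw [← norm_mul, h5]
    calc ‖e t ^ n - 1‖ ≤ ‖e t ^ n‖ + ‖(1 : ℂ)‖ := norm_sub_le _ _
      _ = 2 := by rw [norm_pow, norm_e, one_pow, norm_one]; norm_num
  rw [h4] at h6
  rw [le_div_iff₀ hδ]
  have h7 : (2 * (δ / π)) * ‖D n (e t)‖ ≤ 2 := by
    refine le_trans ?_ h6
    apply mul_le_mul_of_nonneg_right _ (norm_nonneg _)
    linarith
  have h8 : (2 * (δ / π)) * ‖D n (e t)‖ = 2 / π * (‖D n (e t)‖ * δ) := by ring
  rw [h8, div_mul_eq_mul_div, div_le_iff₀ Real.pi_pos] at h7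
  linarith

/-- For `0 < p < 2`, a pointwise Young-type inequality. -/
lemma young (p : ℝ) (hp : 0 < p) (hp2 : p < 2) (y Y : ℝ) (hy : 0 ≤ y) (hY : 0 < Y) :
    y ^ p ≤ Y ^ p + Y ^ (p - 2) * y ^ 2 := by
  rcases le_total y Y with h | h
  · have h1 : y ^ p ≤ Y ^ p := Real.rpow_le_rpow hy h hp.le
    have h2 : 0 ≤ Y ^ (p - 2) * y ^ 2 := by positivity
    linarith
  · have hy' : 0 < y := lt_of_lt_of_le hY h
    have h1 : y ^ p = y ^ (p - 2) * y ^ 2 := by
      rw [← Real.rpow_natCast y 2, ← Real.rpow_add hy']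
      congr 1
      push_cast
      ring
    have h2 : y ^ (p - 2) ≤ Y ^ (p - 2) :=
      Real.rpow_le_rpow_of_nonpos hY h (by linarith)
    have h3 : 0 ≤ Y ^ p := by positivity
    rw [h1]
    have h4 : y ^ (p - 2) * y ^ 2 ≤ Y ^ (p - 2) * y ^ 2 :=
      mul_le_mul_of_nonneg_right h2 (by positivity)
    linarith

/-- The `p`-th power integral over the circle. -/
noncomputable def Ip (p : ℝ) (f : ℝ → ℂ) : ℝ := ∫ t in (0 : ℝ)..(2 * π), ‖f t‖ ^ p

lemma D_Ip (p : ℝ) (hp : 0 < p) (hp2 : p < 2) (n : ℕ) (hn : 0 < n) (δ Y : ℝ) (hδ : 0 < δ)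
    (hδ2 : δ < π) (hY : 0 < Y) :
    Ip p (fun t => D n (e t)) ≤
      (n : ℝ) ^ (p / 2) * (2 * δ * Y ^ p + 2 * π * Y ^ (p - 2)) + 2 * π * (π / δ) ^ p := by
  unfold Ip
  have hcont : Continuous (fun t => ‖D n (e t)‖ ^ p) := by
    have := continuous_D_e n
    exact (this.norm).rpow_const (fun _ => Or.inr hp.le)
  have hcont2 : Continuous (fun t => ‖D n (e t)‖ ^ 2) := by
    have := continuous_D_e n
    fun_prop
  have hn' : (0 : ℝ) < n := by exact_mod_cast hn
  -- the pointwise bound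
  have key : ∀ t : ℝ, ‖D n (e t)‖ ^ p ≤ (n : ℝ) ^ (p / 2) * Y ^ p +
      (n : ℝ) ^ (p / 2) * Y ^ (p - 2) / n * ‖D n (e t)‖ ^ 2 := by
    intro t
    have h1 := young p hp hp2 (‖D n (e t)‖ / (n : ℝ) ^ (1 / 2 : ℝ)) Y (by positivity) hY
    rw [Real.div_rpow (norm_nonneg _) (by positivity), ← Real.rpow_mul hn'.le,
      div_le_iff₀ (by positivity)] at h1
    have h2 : (1 / 2 : ℝ) * p = p / 2 := by ring
    rw [h2] at h1
    have h3 : (‖D n (e t)‖ / (n : ℝ) ^ (1 / 2 : ℝ)) ^ 2 = ‖D n (e t)‖ ^ 2 / n := by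
      rw [div_pow]
      congr 1
      rw [← Real.rpow_natCast, ← Real.rpow_mul hn'.le]
      norm_num
    rw [h3] at h1
    calc ‖D n (e t)‖ ^ p ≤ _ := h1
      _ = _ := by ring
  have pars : ∫ t in (0 : ℝ)..(2 * π), ‖D n (e t)‖ ^ 2 = 2 * π * n := by
    have := parseval n (fun _ => 1)
    simp only [one_mul, norm_one, one_pow, sum_const, card_range, nsmul_eq_mul, mul_one] at this
    exact this
  have hpi := Real.pi_pos
  have split : ∫ t in (0 : ℝ)..(2 * π), ‖D n (e t)‖ ^ p =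
      (∫ t in (0 : ℝ)..δ, ‖D n (e t)‖ ^ p) + (∫ t in δ..(2 * π - δ), ‖D n (e t)‖ ^ p) +
        ∫ t in (2 * π - δ)..(2 * π), ‖D n (e t)‖ ^ p := by
    rw [intervalIntegral.integral_add_adjacent_intervals (hcont.intervalIntegrable _ _)
      (hcont.intervalIntegrable _ _),
      intervalIntegral.integral_add_adjacent_intervals (hcont.intervalIntegrable _ _)
      (hcont.intervalIntegrable _ _)]
  have split2 : ∫ t in (0 : ℝ)..(2 * π), ‖D n (e t)‖ ^ 2 =
      (∫ t in (0 : ℝ)..δ, ‖D n (e t)‖ ^ 2) + (∫ t in δ..(2 * π - δ), ‖D n (e t)‖ ^ 2) +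
        ∫ t in (2 * π - δ)..(2 * π), ‖D n (e t)‖ ^ 2 := by
    rw [intervalIntegral.integral_add_adjacent_intervals (hcont2.intervalIntegrable _ _)
      (hcont2.intervalIntegrable _ _),
      intervalIntegral.integral_add_adjacent_intervals (hcont2.intervalIntegrable _ _)
      (hcont2.intervalIntegrable _ _)]
  have mid : ∫ t in δ..(2 * π - δ), ‖D n (e t)‖ ^ p ≤ 2 * π * (π / δ) ^ p := by
    have h1 : ∫ t in δ..(2 * π - δ), ‖D n (e t)‖ ^ p ≤ ∫ t in δ..(2 * π - δ), (π / δ) ^ p := by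
      apply intervalIntegral.integral_mono_on (by linarith) (hcont.intervalIntegrable _ _)
        (by simp)
      intro t ht
      exact Real.rpow_le_rpow (norm_nonneg _) (D_bound n δ t hδ ht.1 ht.2) hp.le
    refine h1.trans ?_
    rw [intervalIntegral.integral_const, smul_eq_mul]
    apply mul_le_mul_of_nonneg_right _ (by positivity)
    linarith
  set A := (n : ℝ) ^ (p / 2) * Y ^ p with hA
  set B := (n : ℝ) ^ (p / 2) * Y ^ (p - 2) / n with hB
  have hB0 : 0 ≤ B := by positivity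
  have ends : ∀ a b : ℝ, a ≤ b → ∫ t in a..b, ‖D n (e t)‖ ^ p ≤
      (b - a) * A + B * ∫ t in a..b, ‖D n (e t)‖ ^ 2 := by
    intro a b hab
    have h1 : ∫ t in a..b, ‖D n (e t)‖ ^ p ≤ ∫ t in a..b, (A + B * ‖D n (e t)‖ ^ 2) := by
      apply intervalIntegral.integral_mono_on hab (hcont.intervalIntegrable _ _)
      · apply Continuous.intervalIntegrable
        fun_prop
      · intro t _
        exact key t
    refine h1.trans (le_of_eq ?_)
    rw [intervalIntegral.integral_add (by simp)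
      ((hcont2.intervalIntegrable _ _).const_mul _), intervalIntegral.integral_const,
      intervalIntegral.integral_const_mul, smul_eq_mul]
  have e1 := ends 0 δ hδ.le
  have e2 := ends (2 * π - δ) (2 * π) (by linarith)
  have m0 : 0 ≤ ∫ t in δ..(2 * π - δ), ‖D n (e t)‖ ^ 2 :=
    intervalIntegral.integral_nonneg (by linarith) (fun _ _ => by positivity)
  have tot : B * (∫ t in (0 : ℝ)..δ, ‖D n (e t)‖ ^ 2) +
      B * (∫ t in (2 * π - δ)..(2 * π), ‖D n (e t)‖ ^ 2) ≤ B * (2 * π * n) := by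
    rw [← mul_add]
    apply mul_le_mul_of_nonneg_left _ hB0
    rw [← pars, split2]
    linarith
  have hBn : B * (2 * π * n) = (n : ℝ) ^ (p / 2) * (2 * π * Y ^ (p - 2)) := by
    rw [hB]
    field_simp
  rw [split]
  rw [hBn] at tot
  have hAA : (δ - 0) * A + (2 * π - (2 * π - δ)) * A = (n : ℝ) ^ (p / 2) * (2 * δ * Y ^ p) := by
    rw [hA]; ring
  calc _ ≤ ((δ - 0) * A + (2 * π - (2 * π - δ)) * A) + (B * (∫ t in (0 : ℝ)..δ, ‖D n (e t)‖ ^ 2) +
      B * (∫ t in (2 * π - δ)..(2 * π), ‖D n (e t)‖ ^ 2)) + 2 * π * (π / δ) ^ p := by linarith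
    _ ≤ (n : ℝ) ^ (p / 2) * (2 * δ * Y ^ p) + (n : ℝ) ^ (p / 2) * (2 * π * Y ^ (p - 2)) +
        2 * π * (π / δ) ^ p := by rw [hAA]; linarith
    _ = _ := by ring

lemma D_Ip_power (p : ℝ) (hp : 0 < p) (hp2 : p < 2) :
    ∃ C : ℝ, 0 < C ∧ ∃ γ : ℝ, 0 < γ ∧ ∀ n : ℕ, 0 < n →
      Ip p (fun t => D n (e t)) ≤ C * (n : ℝ) ^ (p / 2 - γ) := by
  have hpi := Real.pi_pos
  have hpi3 := Real.pi_gt_three
  refine ⟨2 + 2 * π + 2 * π * π ^ p, by positivity, min ((2 - p) / 8) (p / 4), ?_, ?_⟩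
  · apply lt_min <;> linarith
  intro n hn
  have hn' : (0 : ℝ) < n := by exact_mod_cast hn
  have hn1 : (1 : ℝ) ≤ n := by exact_mod_cast hn
  set γ := min ((2 - p) / 8) (p / 4) with hγ
  have hδ1 : (n : ℝ) ^ (-(1 / 4) : ℝ) ≤ 1 :=
    Real.rpow_le_one_of_one_le_of_nonpos hn1 (by norm_num)
  have h1 := D_Ip p hp hp2 n hn ((n : ℝ) ^ (-(1 / 4) : ℝ)) ((n : ℝ) ^ (1 / 8 : ℝ))
    (by positivity) (by linarith) (by positivity)
  refine h1.trans ?_
  have e1 : (n : ℝ) ^ (-(1 / 4) : ℝ) * ((n : ℝ) ^ (1 / 8 : ℝ)) ^ p =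
      (n : ℝ) ^ (-((2 - p) / 8)) := by
    rw [← Real.rpow_mul hn'.le, ← Real.rpow_add hn']
    congr 1
    ring
  have e2 : ((n : ℝ) ^ (1 / 8 : ℝ)) ^ (p - 2) = (n : ℝ) ^ (-((2 - p) / 8)) := by
    rw [← Real.rpow_mul hn'.le]
    congr 1
    ring
  have e3 : (π / (n : ℝ) ^ (-(1 / 4) : ℝ)) ^ p = π ^ p * (n : ℝ) ^ (p / 4) := by
    rw [Real.div_rpow hpi.le (by positivity), ← Real.rpow_mul hn'.le, div_eq_mul_inv,
      ← Real.rpow_neg hn'.le]
    congr 2
    ring
  have e4 : (n : ℝ) ^ (p / 2) * (2 * (n : ℝ) ^ (-(1 / 4) : ℝ) * ((n : ℝ) ^ (1 / 8 : ℝ)) ^ p +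
      2 * π * ((n : ℝ) ^ (1 / 8 : ℝ)) ^ (p - 2)) =
      (2 + 2 * π) * (n : ℝ) ^ (p / 2 - (2 - p) / 8) := by
    rw [mul_assoc 2, e1, e2, sub_eq_add_neg (p / 2), Real.rpow_add hn']
    ring
  rw [e4, e3]
  have b1 : (n : ℝ) ^ (p / 2 - (2 - p) / 8) ≤ (n : ℝ) ^ (p / 2 - γ) :=
    Real.rpow_le_rpow_of_exponent_le hn1 (by have := min_le_left ((2 - p) / 8) (p / 4); linarith)
  have b2 : (n : ℝ) ^ (p / 4) ≤ (n : ℝ) ^ (p / 2 - γ) :=
    Real.rpow_le_rpow_of_exponent_le hn1 (by have := min_le_right ((2 - p) / 8) (p / 4); linarith)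
  calc (2 + 2 * π) * (n : ℝ) ^ (p / 2 - (2 - p) / 8) + 2 * π * (π ^ p * (n : ℝ) ^ (p / 4))
      ≤ (2 + 2 * π) * (n : ℝ) ^ (p / 2 - γ) + 2 * π * (π ^ p * (n : ℝ) ^ (p / 2 - γ)) := by
        gcongr
    _ = _ := by ring

lemma e_add_two_pi (t : ℝ) : e (t + 2 * π) = e t := by
  unfold e
  push_cast
  rw [add_mul, Complex.exp_add, Complex.exp_two_pi_mul_I, mul_one]

lemma e_pow (t : ℝ) (n : ℕ) : e t ^ n = e (n * t) := by
  unfold e
  rw [← Complex.exp_nat_mul]
  congr 1
  push_cast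
  ring

lemma integral_dilate (h : ℝ → ℝ) (hper : Function.Periodic h (2 * π)) (hc : Continuous h)
    (n : ℕ) (hn : 0 < n) :
    ∫ t in (0 : ℝ)..(2 * π), h (n * t) = ∫ t in (0 : ℝ)..(2 * π), h t := by
  have hn' : (n : ℝ) ≠ 0 := by exact_mod_cast hn.ne'
  rw [intervalIntegral.integral_comp_mul_left _ hn']
  have h1 := hper.intervalIntegral_add_zsmul_eq (n : ℤ) 0
    (fun a b => hc.intervalIntegrable a b)
  rw [zero_add, zero_add] at h1
  have h2 : ((n : ℤ) • (2 * π) : ℝ) = n * (2 * π) := by simp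
  rw [h2] at h1
  rw [mul_zero, h1]
  simp only [natCast_zsmul, nsmul_eq_mul, smul_eq_mul]
  field_simp

lemma Ip_D_dilate (p : ℝ) (hp : 0 < p) (n : ℕ) (hn : 0 < n) :
    Ip p (fun t => D n (e t ^ n)) = Ip p (fun t => D n (e t)) := by
  unfold Ip
  have hcont : Continuous (fun t => ‖D n (e t)‖ ^ p) :=
    ((continuous_D_e n).norm).rpow_const (fun _ => Or.inr hp.le)
  have h1 := integral_dilate (fun t => ‖D n (e t)‖ ^ p)
    (fun t => by simp only [e_add_two_pi]) hcont n hn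
  simp_rw [e_pow]
  exact h1

/-- If `‖f‖ ≤ M` on the circle then `∫ |f|^2 ≤ M^(2-p) ∫ |f|^p`. -/
lemma flat (p : ℝ) (hp : 0 < p) (hp2 : p < 2) (f : ℝ → ℂ) (hf : Continuous f) (M : ℝ)
    (hM : ∀ t, ‖f t‖ ≤ M) :
    ∫ t in (0 : ℝ)..(2 * π), ‖f t‖ ^ 2 ≤ M ^ (2 - p) * Ip p f := by
  unfold Ip
  have hpi := Real.pi_pos
  rw [← intervalIntegral.integral_const_mul]
  have hcont : Continuous (fun t => ‖f t‖ ^ p) := (hf.norm).rpow_const (fun _ => Or.inr hp.le)
  apply intervalIntegral.integral_mono_on (by positivity)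
  · apply Continuous.intervalIntegrable
    fun_prop
  · apply Continuous.intervalIntegrable
    exact continuous_const.mul hcont
  · intro t _
    rcases (norm_nonneg (f t)).eq_or_lt with h | h
    · rw [← h]
      have : (0 : ℝ) ^ p = 0 := Real.zero_rpow hp.ne'
      rw [this]
      simp
    · have h1 : ‖f t‖ ^ 2 = ‖f t‖ ^ (2 - p) * ‖f t‖ ^ p := by
        rw [← Real.rpow_add h, ← Real.rpow_natCast]
        congr 1
        push_cast
        ring
      rw [h1]
      apply mul_le_mul_of_nonneg_right _ (by positivity)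
      exact Real.rpow_le_rpow h.le (hM t) (by linarith)

/-- `(x + y)^p ≤ 2^p (x^p + y^p)`. -/
lemma add_rpow_le (p : ℝ) (hp : 0 < p) (x y : ℝ) (hx : 0 ≤ x) (hy : 0 ≤ y) :
    (x + y) ^ p ≤ 2 ^ p * (x ^ p + y ^ p) := by
  have h1 : x + y ≤ 2 * max x y := by
    have := le_max_left x y
    have := le_max_right x y
    linarith
  have h2 : (x + y) ^ p ≤ (2 * max x y) ^ p := Real.rpow_le_rpow (by linarith) h1 hp.le
  have h3 : (max x y) ^ p ≤ x ^ p + y ^ p := by
    rcases max_choice x y with h | h <;> rw [h]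
    · have : 0 ≤ y ^ p := by positivity
      linarith
    · have : 0 ≤ x ^ p := by positivity
      linarith
  rw [Real.mul_rpow (by norm_num) (le_max_of_le_left hx)] at h2
  refine h2.trans ?_
  exact mul_le_mul_of_nonneg_left h3 (by positivity)

lemma Ip_add_le (p : ℝ) (hp : 0 < p) (f g h : ℝ → ℂ) (hf : Continuous f) (hg : Continuous g)
    (hh : Continuous h) (hfgh : ∀ t, ‖f t‖ ≤ ‖g t‖ + ‖h t‖) :
    Ip p f ≤ 2 ^ p * (Ip p g + Ip p h) := by
  unfold Ip
  have hpi := Real.pi_pos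
  have cf : Continuous (fun t => ‖f t‖ ^ p) := (hf.norm).rpow_const (fun _ => Or.inr hp.le)
  have cg : Continuous (fun t => ‖g t‖ ^ p) := (hg.norm).rpow_const (fun _ => Or.inr hp.le)
  have ch : Continuous (fun t => ‖h t‖ ^ p) := (hh.norm).rpow_const (fun _ => Or.inr hp.le)
  rw [← intervalIntegral.integral_add (cg.intervalIntegrable _ _) (ch.intervalIntegrable _ _),
    ← intervalIntegral.integral_const_mul]
  apply intervalIntegral.integral_mono_on (by positivity) (cf.intervalIntegrable _ _)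
  · apply Continuous.intervalIntegrable
    fun_prop
  · intro t _
    refine (Real.rpow_le_rpow (norm_nonneg _) (hfgh t) hp.le).trans ?_
    exact add_rpow_le p hp _ _ (norm_nonneg _) (norm_nonneg _)

lemma Ip_mul_le (p : ℝ) (hp : 0 < p) (f g : ℝ → ℂ) (hf : Continuous f) (hg : Continuous g)
    (M : ℝ) (hM : ∀ t, ‖f t‖ ≤ M) :
    Ip p (fun t => f t * g t) ≤ M ^ p * Ip p g := by
  unfold Ip
  have hpi := Real.pi_pos
  have cfg : Continuous (fun t => ‖f t * g t‖ ^ p) :=
    ((hf.mul hg).norm).rpow_const (fun _ => Or.inr hp.le)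
  have cg : Continuous (fun t => ‖g t‖ ^ p) := (hg.norm).rpow_const (fun _ => Or.inr hp.le)
  rw [← intervalIntegral.integral_const_mul]
  apply intervalIntegral.integral_mono_on (by positivity) (cfg.intervalIntegrable _ _)
  · apply Continuous.intervalIntegrable
    fun_prop
  · intro t _
    rw [norm_mul, Real.mul_rpow (norm_nonneg _) (norm_nonneg _)]
    apply mul_le_mul_of_nonneg_right _ (by positivity)
    exact Real.rpow_le_rpow (norm_nonneg _) (hM t) hp.le

lemma eval_mk (N : ℕ) (A : ℕ → ℝ) (z : ℂ) :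
    ((∑ i ∈ range N, Polynomial.monomial i (A i)).map (algebraMap ℝ ℂ)).eval z =
      ∑ i ∈ range N, (A i : ℂ) * z ^ i := by
  rw [Polynomial.map_sum, Polynomial.eval_finsetSum]
  apply Finset.sum_congr rfl
  intro i _
  rw [Polynomial.map_monomial, Polynomial.eval_monomial]
  rfl

lemma coeff_mk (N : ℕ) (A : ℕ → ℝ) (j : ℕ) :
    (∑ i ∈ range N, Polynomial.monomial i (A i)).coeff j = if j < N then A j else 0 := by
  rw [Polynomial.finsetSum_coeff]
  simp only [Polynomial.coeff_monomial]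
  rw [Finset.sum_ite_eq' (range N) j A]
  simp only [mem_range]

lemma natDegree_mk (N : ℕ) (hN : 0 < N) (A : ℕ → ℝ) :
    (∑ i ∈ range N, Polynomial.monomial i (A i)).natDegree < N := by
  have h : (∑ i ∈ range N, Polynomial.monomial i (A i)).natDegree ≤ N - 1 := by
    rw [Polynomial.natDegree_le_iff_coeff_eq_zero]
    intro k hk
    rw [coeff_mk, if_neg (by omega)]
  omega

lemma trunc_one : trunc 1 = 1 := by simp [trunc]

lemma trunc_neg_one : trunc (-1) = -1 := by simp [trunc]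

lemma trunc_three : trunc 3 = 1 := by
  unfold trunc
  have : ‖(3 : ℂ)‖ = 3 := by simp
  rw [this]
  norm_num

/-- The key algebraic identity for the truncated coefficients. -/
lemma trunc_key (x y : ℝ) (hx : x = 1 ∨ x = -1) (hy : y = 1 ∨ y = -1) :
    trunc ((1 + x + y : ℝ) : ℂ) = ((1 + x + y - x * y) / 2 : ℂ) := by
  rcases hx with rfl | rfl <;> rcases hy with rfl | rfl
  · have : ((1 + 1 + 1 : ℝ) : ℂ) = 3 := by norm_num
    rw [this, trunc_three]
    norm_num
  · have : ((1 + 1 + -1 : ℝ) : ℂ) = 1 := by norm_num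
    rw [this, trunc_one]
    norm_num
  · have : ((1 + -1 + 1 : ℝ) : ℂ) = 1 := by norm_num
    rw [this, trunc_one]
    norm_num
  · have : ((1 + -1 + -1 : ℝ) : ℂ) = -1 := by norm_num
    rw [this, trunc_neg_one]
    norm_num

/-- Main construction: for each `m` there is a real polynomial of degree `< 4^m` whose
truncation has large `p`-integral. -/
lemma main_m (p : ℝ) (hp : 0 < p) (hp2 : p < 2) :
    ∃ c : ℝ, 0 < c ∧ ∃ γ : ℝ, 0 < γ ∧ ∀ m : ℕ, ∃ P : Polynomial ℝ, P ≠ 0 ∧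
      P.natDegree < 4 ^ m ∧
      0 < Ip p (fun t => (P.map (algebraMap ℝ ℂ)).eval (e t)) ∧
      c * ((2 : ℝ) ^ m) ^ γ * Ip p (fun t => (P.map (algebraMap ℝ ℂ)).eval (e t)) ≤
        Ip p (fun t => (S (P.map (algebraMap ℝ ℂ))).eval (e t)) := by
  obtain ⟨C, hC, γ, hγ, hD⟩ := D_Ip_power p hp hp2
  have hpi := Real.pi_pos
  set C2 : ℝ := 2 ^ p * (2 ^ p * (2 * (2 ^ (p / 2) * C)) + C) with hC2
  have hC2pos : 0 < C2 := by positivity
  set c1 : ℝ := 2 * π * 2 ^ (p - 2) with hc1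
  have hc1pos : 0 < c1 := by positivity
  refine ⟨c1 / (2 * (2 ^ p * 2 ^ p) * C2), by positivity, γ, hγ, ?_⟩
  intro m
  obtain ⟨a, b, ha, -, hab⟩ := rs m
  set n : ℕ := 2 ^ m with hn
  have hn0 : 0 < n := by positivity
  have hnR : (0 : ℝ) < n := by exact_mod_cast hn0
  have hnR1 : (1 : ℝ) ≤ n := by exact_mod_cast hn0
  have hncast : ((2 : ℝ) ^ m) = n := by rw [hn]; push_cast; rfl
  have hnn : n * n = 4 ^ m := by
    rw [hn, ← mul_pow]
    norm_num
  rw [hncast]
  -- the polynomial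
  set A : ℕ → ℝ := fun i => 1 + a (i % n) + a (i / n) with hA
  set P : Polynomial ℝ := ∑ i ∈ range (n * n), Polynomial.monomial i (A i) with hP
  set Q : ℂ → ℂ := fun z => ∑ k ∈ range n, (a k : ℂ) * z ^ k with hQ
  have hnn0 : 0 < n * n := by positivity
  have hdeg : P.natDegree < n * n := natDegree_mk _ hnn0 _
  have hdegC : (P.map (algebraMap ℝ ℂ)).natDegree < n * n :=
    lt_of_le_of_lt Polynomial.natDegree_map_le hdeg
  -- bounds for Q
  have hQb : ∀ z : ℂ, ‖z‖ = 1 → ‖Q z‖ ≤ ((2 : ℝ) * n) ^ (1 / 2 : ℝ) := by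
    intro z hz
    have h1 := hab z hz
    have h2 : ‖Q z‖ ^ 2 ≤ 2 * n := by
      have : (0 : ℝ) ≤ ‖∑ k ∈ range n, (b k : ℂ) * z ^ k‖ ^ 2 := by positivity
      rw [hncast] at h1
      rw [hQ]
      linarith
    rw [← Real.sqrt_eq_rpow]
    exact Real.le_sqrt_of_sq_le h2
  have hce := continuous_e
  have hQe : Continuous (fun t => Q (e t)) := by
    rw [hQ]
    fun_prop
  have hQen : Continuous (fun t => Q (e t ^ n)) := by
    rw [hQ]
    fun_prop
  have hDe : ∀ k, Continuous (fun t => D k (e t)) := fun k => continuous_D_e k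
  have hDen : Continuous (fun t => D n (e t ^ n)) := by
    unfold D
    fun_prop
  have hnorm_en : ∀ t, ‖e t ^ n‖ = 1 := fun t => by rw [norm_pow, norm_e, one_pow]
  -- evaluation formulas
  have hF : ∀ z : ℂ, (P.map (algebraMap ℝ ℂ)).eval z =
      D (n * n) z + (Q z * D n (z ^ n) + Q (z ^ n) * D n z) := by
    intro z
    rw [hP, eval_mk]
    have h1 : ∀ i, ((A i : ℝ) : ℂ) * z ^ i = z ^ i + (((a (i % n) : ℝ) : ℂ) * 1 * z ^ i +
        1 * ((a (i / n) : ℝ) : ℂ) * z ^ i) := by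
      intro i
      rw [hA]
      push_cast
      ring
    rw [Finset.sum_congr rfl (fun i _ => h1 i), Finset.sum_add_distrib, Finset.sum_add_distrib]
    have h2 := sum_digits n hn0 (fun j => ((a j : ℝ) : ℂ)) (fun _ => 1) z n
    have h3 := sum_digits n hn0 (fun _ => 1) (fun j => ((a j : ℝ) : ℂ)) z n
    rw [h2, h3]
    unfold D
    rw [hQ]
    simp only [one_mul]
    ring
  have hSF : ∀ z : ℂ, (S (P.map (algebraMap ℝ ℂ))).eval z =
      ((P.map (algebraMap ℝ ℂ)).eval z - Q z * Q (z ^ n)) / 2 := by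
    intro z
    rw [S_eval _ (n * n) hdegC, hP, eval_mk]
    have h3 := sum_digits n hn0 (fun j => ((a j : ℝ) : ℂ)) (fun j => ((a j : ℝ) : ℂ)) z n
    rw [hQ]
    simp only
    rw [← h3, ← Finset.sum_sub_distrib, Finset.sum_div]
    apply Finset.sum_congr rfl
    intro i hi
    rw [Polynomial.coeff_map, coeff_mk, if_pos (mem_range.mp hi)]
    have h4 : (algebraMap ℝ ℂ) (A i) = ((1 + a (i % n) + a (i / n) : ℝ) : ℂ) := rfl
    rw [h4, trunc_key _ _ (ha _) (ha _), hA]
    push_cast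
    ring
  have hcF : Continuous (fun t => (P.map (algebraMap ℝ ℂ)).eval (e t)) :=
    (Polynomial.continuous _).comp hce
  have hcSF : Continuous (fun t => (S (P.map (algebraMap ℝ ℂ))).eval (e t)) :=
    (Polynomial.continuous _).comp hce
  have hcG : Continuous (fun t => Q (e t) * Q (e t ^ n)) := hQe.mul hQen
  -- abbreviations for the p-integrals
  set IF := Ip p (fun t => (P.map (algebraMap ℝ ℂ)).eval (e t)) with hIF
  set IS := Ip p (fun t => (S (P.map (algebraMap ℝ ℂ))).eval (e t)) with hIS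
  set IG := Ip p (fun t => Q (e t) * Q (e t ^ n)) with hIG
  -- upper bound for IF
  have hIFle : IF ≤ C2 * (n : ℝ) ^ (p - γ) := by
    have s1 : IF ≤ 2 ^ p * (Ip p (fun t => D (n * n) (e t)) +
        Ip p (fun t => Q (e t) * D n (e t ^ n) + Q (e t ^ n) * D n (e t))) := by
      apply Ip_add_le p hp _ _ _ hcF (hDe _) ((hQe.mul hDen).add (hQen.mul (hDe n)))
      intro t
      rw [hF]
      exact norm_add_le _ _
    have s2 : Ip p (fun t => Q (e t) * D n (e t ^ n) + Q (e t ^ n) * D n (e t)) ≤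
        2 ^ p * (Ip p (fun t => Q (e t) * D n (e t ^ n)) +
          Ip p (fun t => Q (e t ^ n) * D n (e t))) := by
      apply Ip_add_le p hp _ _ _ ((hQe.mul hDen).add (hQen.mul (hDe n))) (hQe.mul hDen)
        (hQen.mul (hDe n))
      intro t
      exact norm_add_le _ _
    have s3 : Ip p (fun t => Q (e t) * D n (e t ^ n)) ≤
        (((2 : ℝ) * n) ^ (1 / 2 : ℝ)) ^ p * Ip p (fun t => D n (e t)) := by
      rw [← Ip_D_dilate p hp n hn0]
      exact Ip_mul_le p hp _ _ hQe hDen _ (fun t => hQb _ (norm_e t))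
    have s4 : Ip p (fun t => Q (e t ^ n) * D n (e t)) ≤
        (((2 : ℝ) * n) ^ (1 / 2 : ℝ)) ^ p * Ip p (fun t => D n (e t)) :=
      Ip_mul_le p hp _ _ hQen (hDe n) _ (fun t => hQb _ (hnorm_en t))
    have s5 : (((2 : ℝ) * n) ^ (1 / 2 : ℝ)) ^ p = 2 ^ (p / 2) * (n : ℝ) ^ (p / 2) := by
      rw [← Real.rpow_mul (by positivity), Real.mul_rpow (by norm_num) hnR.le]
      have : (1 / 2 : ℝ) * p = p / 2 := by ring
      rw [this]
    have s6 : (((2 : ℝ) * n) ^ (1 / 2 : ℝ)) ^ p * Ip p (fun t => D n (e t)) ≤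
        2 ^ (p / 2) * C * (n : ℝ) ^ (p - γ) := by
      rw [s5]
      calc 2 ^ (p / 2) * (n : ℝ) ^ (p / 2) * Ip p (fun t => D n (e t))
          ≤ 2 ^ (p / 2) * (n : ℝ) ^ (p / 2) * (C * (n : ℝ) ^ (p / 2 - γ)) :=
            mul_le_mul_of_nonneg_left (hD n hn0) (by positivity)
        _ = 2 ^ (p / 2) * C * ((n : ℝ) ^ (p / 2) * (n : ℝ) ^ (p / 2 - γ)) := by ring
        _ = 2 ^ (p / 2) * C * (n : ℝ) ^ (p - γ) := by
            rw [← Real.rpow_add hnR]
            congr 2
            ring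
    have s7 : Ip p (fun t => D (n * n) (e t)) ≤ C * (n : ℝ) ^ (p - γ) := by
      refine (hD (n * n) hnn0).trans ?_
      apply mul_le_mul_of_nonneg_left _ hC.le
      push_cast
      rw [Real.mul_rpow hnR.le hnR.le, ← Real.rpow_add hnR]
      apply Real.rpow_le_rpow_of_exponent_le hnR1
      linarith
    have s8 : Ip p (fun t => Q (e t) * D n (e t ^ n) + Q (e t ^ n) * D n (e t)) ≤
        2 ^ p * (2 * (2 ^ (p / 2) * C)) * (n : ℝ) ^ (p - γ) := by
      refine s2.trans ?_
      rw [mul_assoc ((2 : ℝ) ^ p)]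
      apply mul_le_mul_of_nonneg_left _ (by positivity)
      linarith
    refine s1.trans ?_
    rw [hC2, mul_assoc ((2 : ℝ) ^ p) _ ((n : ℝ) ^ (p - γ))]
    apply mul_le_mul_of_nonneg_left _ (by positivity)
    linarith
  -- lower bound for IG
  have hIGge : c1 * (n : ℝ) ^ p ≤ IG := by
    have g1 := flat p hp hp2 (fun t => Q (e t) * Q (e t ^ n)) hcG (2 * n) (by
      intro t
      rw [norm_mul]
      have h1 := hQb _ (norm_e t)
      have h2 := hQb _ (hnorm_en t)
      calc ‖Q (e t)‖ * ‖Q (e t ^ n)‖ ≤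
          ((2 : ℝ) * n) ^ (1 / 2 : ℝ) * ((2 : ℝ) * n) ^ (1 / 2 : ℝ) := by gcongr
        _ = 2 * n := by
          rw [← Real.rpow_add (by positivity)]
          norm_num)
    have g2 : ∫ t in (0 : ℝ)..(2 * π), ‖Q (e t) * Q (e t ^ n)‖ ^ 2 = 2 * π * (n * n : ℕ) := by
      have h3 : ∀ t : ℝ, Q (e t) * Q (e t ^ n) =
          ∑ i ∈ range (n * n), (((a (i % n) : ℝ) : ℂ) * ((a (i / n) : ℝ) : ℂ)) * e t ^ i := by
        intro t
        rw [sum_digits n hn0 (fun j => ((a j : ℝ) : ℂ)) (fun j => ((a j : ℝ) : ℂ)) (e t) n]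
      simp_rw [h3]
      rw [parseval]
      congr 1
      have h4 : ∀ i ∈ range (n * n),
          ‖((a (i % n) : ℝ) : ℂ) * ((a (i / n) : ℝ) : ℂ)‖ ^ 2 = 1 := by
        intro i _
        have h5 : ∀ j, ‖((a j : ℝ) : ℂ)‖ = 1 := by
          intro j
          rcases ha j with h | h <;> rw [h] <;> simp
        rw [norm_mul, h5, h5]
        norm_num
      rw [Finset.sum_congr rfl h4]
      simp
    rw [g2] at g1
    have g3 : (2 * (n : ℝ)) ^ (2 - p) * (c1 * (n : ℝ) ^ p) = 2 * π * (n * n : ℕ) := by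
      rw [hc1, Real.mul_rpow (by norm_num) hnR.le]
      have e1 : (2 : ℝ) ^ (2 - p) * 2 ^ (p - 2) = 1 := by
        rw [← Real.rpow_add (by norm_num)]
        norm_num
      have e2 : (n : ℝ) ^ (2 - p) * (n : ℝ) ^ p = n * n := by
        rw [← Real.rpow_add hnR]
        norm_num
        ring
      push_cast
      calc (2 : ℝ) ^ (2 - p) * (n : ℝ) ^ (2 - p) * (2 * π * 2 ^ (p - 2) * (n : ℝ) ^ p)
          = 2 * π * ((2 : ℝ) ^ (2 - p) * 2 ^ (p - 2)) * ((n : ℝ) ^ (2 - p) * (n : ℝ) ^ p) := by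
            ring
        _ = _ := by rw [e1, e2]; ring
    rw [← g3] at g1
    exact le_of_mul_le_mul_left g1 (by positivity)
  -- G = F - 2 SF
  have hIGle : IG ≤ 2 ^ p * IF + 2 ^ p * 2 ^ p * IS := by
    have g1 : IG ≤ 2 ^ p * (IF + Ip p (fun t => 2 * (S (P.map (algebraMap ℝ ℂ))).eval (e t))) := by
      apply Ip_add_le p hp _ _ _ hcG hcF (continuous_const.mul hcSF)
      intro t
      have h1 : Q (e t) * Q (e t ^ n) = (P.map (algebraMap ℝ ℂ)).eval (e t) -
          2 * (S (P.map (algebraMap ℝ ℂ))).eval (e t) := by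
        rw [hSF]
        ring
      rw [h1]
      exact norm_sub_le _ _
    have g2 : Ip p (fun t => 2 * (S (P.map (algebraMap ℝ ℂ))).eval (e t)) ≤ 2 ^ p * IS := by
      apply Ip_mul_le p hp (fun _ => 2) _ continuous_const hcSF 2
      intro t
      simp
    calc IG ≤ _ := g1
      _ ≤ 2 ^ p * (IF + 2 ^ p * IS) := by gcongr
      _ = _ := by ring
  have hIS0 : 0 ≤ IS := by
    rw [hIS]
    unfold Ip
    apply intervalIntegral.integral_nonneg (by positivity)
    intro t _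
    positivity
  have hnp : 0 < (n : ℝ) ^ p := by positivity
  have hnγ : 0 < (n : ℝ) ^ γ := by positivity
  have hsplit : (n : ℝ) ^ (p - γ) * (n : ℝ) ^ γ = (n : ℝ) ^ p := by
    rw [← Real.rpow_add hnR]
    congr 1
    ring
  rcases le_total (c1 * (n : ℝ) ^ p / 2) (2 ^ p * IF) with hcase | hcase
  · -- use the constant polynomial 1
    refine ⟨1, one_ne_zero, ?_, ?_, ?_⟩
    · rw [Polynomial.natDegree_one]
      positivity
    · unfold Ip
      simp only [Polynomial.map_one, Polynomial.eval_one, norm_one, Real.one_rpow]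
      simp
      positivity
    · have hone : S (Polynomial.map (algebraMap ℝ ℂ) 1) = 1 := by
        unfold S
        simp [trunc_one]
      rw [hone]
      have h1 : Ip p (fun t => (Polynomial.map (algebraMap ℝ ℂ) 1).eval (e t)) = 2 * π := by
        unfold Ip
        simp
      have h2 : Ip p (fun t => (1 : Polynomial ℂ).eval (e t)) = 2 * π := by
        unfold Ip
        simp
      rw [h1, h2]
      have h3 : c1 * (n : ℝ) ^ p / 2 ≤ 2 ^ p * (C2 * (n : ℝ) ^ (p - γ)) :=
        hcase.trans (mul_le_mul_of_nonneg_left hIFle (by positivity))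
      have h4 : c1 * (n : ℝ) ^ γ ≤ 2 * (2 ^ p * C2) := by
        rw [← hsplit] at h3
        have hpos : 0 < (n : ℝ) ^ (p - γ) := by positivity
        have : (n : ℝ) ^ (p - γ) * (c1 * (n : ℝ) ^ γ) ≤ (n : ℝ) ^ (p - γ) * (2 * (2 ^ p * C2)) := by
          nlinarith
        exact le_of_mul_le_mul_left this hpos
      have h5 : (1 : ℝ) ≤ 2 ^ p := Real.one_le_rpow (by norm_num) hp.le
      have h6 : c1 / (2 * (2 ^ p * 2 ^ p) * C2) * (n : ℝ) ^ γ ≤ 1 := by
        rw [div_mul_eq_mul_div, div_le_one (by positivity)]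
        refine h4.trans ?_
        have : (2 : ℝ) ^ p * C2 ≤ 2 ^ p * (2 ^ p * C2) := by
          have h7 : 0 < (2 : ℝ) ^ p * C2 := by positivity
          nlinarith
        linarith
      nlinarith
  · refine ⟨P, ?_, ?_, ?_, ?_⟩
    · intro h0
      have h1 : P.coeff 0 = 0 := by rw [h0]; simp
      rw [hP, coeff_mk, if_pos hnn0, hA] at h1
      simp only [Nat.zero_mod, Nat.zero_div] at h1
      rcases ha 0 with h | h <;> rw [h] at h1 <;> norm_num at h1
    · rw [← hnn]
      exact hdeg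
    · -- positivity of IF
      have f1 := flat p hp hp2 (fun t => (P.map (algebraMap ℝ ℂ)).eval (e t)) hcF
        (3 * (n * n : ℕ)) (by
          intro t
          rw [hP, eval_mk]
          calc ‖∑ i ∈ range (n * n), (A i : ℂ) * e t ^ i‖
              ≤ ∑ i ∈ range (n * n), ‖(A i : ℂ) * e t ^ i‖ := norm_sum_le _ _
            _ ≤ ∑ i ∈ range (n * n), 3 := by
                apply Finset.sum_le_sum
                intro i _
                rw [norm_mul, norm_pow, norm_e, one_pow, mul_one, Complex.norm_real, hA]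
                rcases ha (i % n) with h | h <;> rcases ha (i / n) with h' | h' <;>
                  simp only [h, h'] <;> norm_num
            _ = 3 * (n * n : ℕ) := by
                rw [Finset.sum_const, card_range, nsmul_eq_mul]
                ring)
      have f2 : ∫ t in (0 : ℝ)..(2 * π), ‖(P.map (algebraMap ℝ ℂ)).eval (e t)‖ ^ 2 =
          2 * π * ∑ i ∈ range (n * n), ‖((A i : ℝ) : ℂ)‖ ^ 2 := by
        rw [← parseval]
        simp_rw [hP, eval_mk]
      have f3 : (0 : ℝ) < 2 * π * ∑ i ∈ range (n * n), ‖((A i : ℝ) : ℂ)‖ ^ 2 := by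
        apply mul_pos (by positivity)
        apply Finset.sum_pos
        · intro i _
          rw [Complex.norm_real, hA]
          rcases ha (i % n) with h | h <;> rcases ha (i / n) with h' | h' <;>
            simp only [h, h'] <;> norm_num
        · exact ⟨0, mem_range.mpr hnn0⟩
      rw [f2] at f1
      have f4 := lt_of_lt_of_le f3 f1
      exact pos_of_mul_pos_right f4 (by positivity)
    · -- main case
      have h1 : c1 * (n : ℝ) ^ p / 2 ≤ 2 ^ p * 2 ^ p * IS := by linarith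
      rw [div_mul_eq_mul_div, div_mul_eq_mul_div, div_le_iff₀ (by positivity)]
      calc c1 * (n : ℝ) ^ γ * IF ≤ c1 * (n : ℝ) ^ γ * (C2 * (n : ℝ) ^ (p - γ)) :=
            mul_le_mul_of_nonneg_left hIFle (by positivity)
        _ = C2 * (c1 * (n : ℝ) ^ p) := by rw [← hsplit]; ring
        _ ≤ C2 * (2 * (2 ^ p * 2 ^ p * IS)) := by
            apply mul_le_mul_of_nonneg_left _ hC2pos.le
            linarith
        _ = _ := by ring

lemma natDegree_map_real (P : Polynomial ℝ) :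
    (P.map (algebraMap ℝ ℂ)).natDegree = P.natDegree :=
  Polynomial.natDegree_map_eq_of_injective (algebraMap ℝ ℂ).injective P

/-- `‖S_n‖^comp_p`: the supremum over nonzero complex polynomials of degree at most `n`. -/
noncomputable def normComp (p : ℝ) (n : ℕ) : ENNReal :=
  ⨆ (P : Polynomial ℂ) (_ : P ≠ 0 ∧ P.natDegree ≤ n),
    ENNReal.ofReal (lpNorm p (S P) / lpNorm p P)

/-- `‖S_n‖^real_p`: the supremum over nonzero real polynomials of degree at most `n`. -/
noncomputable def normReal (p : ℝ) (n : ℕ) : ENNReal :=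
  ⨆ (P : Polynomial ℝ) (_ : P ≠ 0 ∧ P.natDegree ≤ n),
    ENNReal.ofReal (lpNorm p (S (P.map (algebraMap ℝ ℂ))) / lpNorm p (P.map (algebraMap ℝ ℂ)))

lemma normReal_le_normComp (p : ℝ) (n : ℕ) : normReal p n ≤ normComp p n := by
  unfold normReal normComp
  apply iSup₂_le
  intro P hP
  have h : P.map (algebraMap ℝ ℂ) ≠ 0 ∧ (P.map (algebraMap ℝ ℂ)).natDegree ≤ n := by
    refine ⟨?_, ?_⟩
    · rw [Polynomial.map_ne_zero_iff (algebraMap ℝ ℂ).injective]
      exact hP.1
    · rw [natDegree_map_real]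
      exact hP.2
  exact le_iSup₂ (f := fun (P : Polynomial ℂ) (_ : P ≠ 0 ∧ P.natDegree ≤ n) =>
    ENNReal.ofReal (lpNorm p (S P) / lpNorm p P)) (P.map (algebraMap ℝ ℂ)) h

/-- For every `p ∈ (0, 2)` the norms `‖S_n‖^real_p ≤ ‖S_n‖^comp_p` grow at least like a positive
power of `n`. -/
theorem result : ∀ p : ℝ, 0 < p → p < 2 → ∃ c : ℝ, 0 < c ∧ ∃ δ : ℝ, 0 < δ ∧
    ∀ n : ℕ, 1 ≤ n →
      ENNReal.ofReal (c * (n : ℝ) ^ δ) ≤ normReal p n ∧ normReal p n ≤ normComp p n := by
  intro p hp hp2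
  obtain ⟨c, hc, γ, hγ, h⟩ := main_m p hp hp2
  refine ⟨(c * (1 / 2 : ℝ) ^ γ) ^ (1 / p), by positivity, γ / 2 / p, by positivity, ?_⟩
  intro n hn
  refine ⟨?_, normReal_le_normComp p n⟩
  obtain ⟨P, hP0, hPd, hPpos, hPle⟩ := h (Nat.log 4 n)
  have hn' : n ≠ 0 := by omega
  have h1 : 4 ^ Nat.log 4 n ≤ n := Nat.pow_log_le_self 4 hn'
  have h2 : n < 4 ^ (Nat.log 4 n + 1) := Nat.lt_pow_succ_log_self (by norm_num) n
  unfold normReal
  apply le_iSup₂_of_le P ⟨hP0, by omega⟩
  apply ENNReal.ofReal_le_ofReal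
  have e1 : lpNorm p (P.map (algebraMap ℝ ℂ)) =
      (Ip p (fun t => (P.map (algebraMap ℝ ℂ)).eval (e t))) ^ (1 / p) := rfl
  have e2 : lpNorm p (S (P.map (algebraMap ℝ ℂ))) =
      (Ip p (fun t => (S (P.map (algebraMap ℝ ℂ))).eval (e t))) ^ (1 / p) := rfl
  rw [e1, e2]
  set IF := Ip p (fun t => (P.map (algebraMap ℝ ℂ)).eval (e t))
  set IS := Ip p (fun t => (S (P.map (algebraMap ℝ ℂ))).eval (e t))
  have hnR : (0 : ℝ) < n := by exact_mod_cast hn
  rw [le_div_iff₀ (by positivity)]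
  have h3 : (1 / 2 : ℝ) ^ γ * ((n : ℝ) ^ (γ / 2)) ≤ ((2 : ℝ) ^ Nat.log 4 n) ^ γ := by
    have h4 : (n : ℝ) ^ (1 / 2 : ℝ) ≤ 2 * 2 ^ Nat.log 4 n := by
      rw [← Real.sqrt_eq_rpow]
      apply Real.sqrt_le_iff.mpr
      refine ⟨by positivity, ?_⟩
      have h5 : (n : ℝ) ≤ 4 ^ (Nat.log 4 n + 1) := by exact_mod_cast h2.le
      calc (n : ℝ) ≤ 4 ^ (Nat.log 4 n + 1) := h5
        _ = (2 * 2 ^ Nat.log 4 n) ^ 2 := by
          rw [mul_pow, ← pow_mul, mul_comm (Nat.log 4 n) 2, pow_mul, pow_succ]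
          norm_num
          ring
    have h6 : (n : ℝ) ^ (γ / 2) = ((n : ℝ) ^ (1 / 2 : ℝ)) ^ γ := by
      rw [← Real.rpow_mul hnR.le]
      congr 1
      ring
    rw [h6, ← Real.mul_rpow (by norm_num) (by positivity)]
    apply Real.rpow_le_rpow (by positivity) _ hγ.le
    linarith
  have h7 : (n : ℝ) ^ (γ / 2 / p) = ((n : ℝ) ^ (γ / 2)) ^ (1 / p) := by
    rw [← Real.rpow_mul hnR.le]
    congr 1
    ring
  rw [h7, ← Real.mul_rpow (by positivity) (by positivity),
    ← Real.mul_rpow (by positivity) hPpos.le]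
  apply Real.rpow_le_rpow (by positivity) _ (by positivity)
  refine le_trans ?_ hPle
  apply mul_le_mul_of_nonneg_right _ hPpos.le
  rw [mul_assoc]
  exact mul_le_mul_of_nonneg_left h3 hc.le

end Pool.Agent.Results.MP_2fd64a_an.TruncationPowerGrowth
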